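import Pool.Agent.H87.GS.Defs
import Pool.Agent.H34.WMC.SUM
import Pool.Agent.H62.WMC.WMP
import Pool.Agent.H83.WMC.TWI
import Pool.Agent.H9.AK.Sim

/-!
Weight-monodromy for zero loci in products of Grassmannians (MP_d037d4_ag).
-/

noncomputable section

namespace Pool.H87.GS

open Module CategoryTheory AlgebraicGeometry Pool.H9.WMC Pool.H9.AK Pool.H73.WM

/-! ### Dimensions -/

theorem two_mul_choose_two (k : ℕ) : 2 * k.choose 2 = k * (k - 1) := by
  rw [Nat.choose_two_right, Nat.mul_div_cancel' (Nat.even_mul_pred_self k).two_dvd]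

theorem dim_eq {m : ℕ} (k : Fin m → ℕ) :
    ∑ j, k j ^ 2 = ∑ j, k j + 2 * ∑ j, (k j).choose 2 := by
  rw [Finset.mul_sum, ← Finset.sum_add_distrib]
  refine Finset.sum_congr rfl fun j _ => ?_
  rw [two_mul_choose_two]
  rcases Nat.eq_zero_or_pos (k j) with h | h
  · rw [h]; rfl
  · obtain ⟨l, hl⟩ := Nat.exists_eq_add_of_le' h
    rw [hl, Nat.add_sub_cancel]
    ring

/-! ### Twists and isometries -/

section
variable {q : ℕ} {Ω : Type} [Field Ω] [CharZero Ω]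

/-- The Tate twist `M (-r)`. -/
def sc (hq : 1 < q) (M : FN q Ω) (r : ℕ) : FN q Ω where
  V := M.V
  F := (q : Ω) ^ r • M.F
  N := M.N
  F_inj := by
    intro x hx
    apply M.F_inj
    rw [LinearMap.smul_apply] at hx
    exact (smul_eq_zero.1 hx).resolve_left (pow_ne_zero _ (FN.q_ne hq))
  N_nilp := M.N_nilp
  NF := by
    intro x
    rw [LinearMap.smul_apply, LinearMap.smul_apply, map_smul, M.NF, smul_comm]
  mixed := by
    intro α x hx0 hx
    have hq0 : (q : Ω) ^ r ≠ 0 := pow_ne_zero _ (FN.q_ne hq)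
    rw [LinearMap.smul_apply] at hx
    have h1 : M.F x = (((q : Ω) ^ r)⁻¹ * α) • x := by
      rw [mul_smul, ← hx, smul_smul, inv_mul_cancel₀ hq0, one_smul]
    obtain ⟨w, hw⟩ := M.mixed _ x hx0 h1
    refine ⟨w + 2 * r, ?_⟩
    have h2 := IsWeil.mul hq hw (isWeil_q_pow hq r)
    rwa [mul_comm, ← mul_assoc, mul_inv_cancel₀ hq0, one_mul] at h2

theorem sc_pur [IsAlgClosed Ω] (hq : 1 < q) (M : FN q Ω) (r : ℕ) (w : ℤ) :
    M.Pur w ↔ (sc hq M r).Pur (w + 2 * r) := by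
  induction r with
  | zero =>
    have h0 : FN.Sim M (sc hq M 0) := by
      refine ⟨1, 1, 1, LinearEquiv.refl _ _, one_pos, one_pos, rfl, one_ne_zero, ?_, ?_⟩
      · intro x
        show (M.F ^ 1) x = (((q : Ω) ^ 0 • M.F) ^ 1) x
        rw [pow_zero, one_smul]
      · intro x
        show M.N x = (1 : Ω) • M.N x
        rw [one_smul]
    have h1 : FN.Sim (sc hq M 0) M := by
      refine ⟨1, 1, 1, LinearEquiv.refl _ _, one_pos, one_pos, rfl, one_ne_zero, ?_, ?_⟩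
      · intro x
        show (((q : Ω) ^ 0 • M.F) ^ 1) x = (M.F ^ 1) x
        rw [pow_zero, one_smul]
      · intro x
        show M.N x = (1 : Ω) • M.N x
        rw [one_smul]
    rw [Nat.cast_zero, mul_zero, add_zero, ← Pool.WMC.wmp_thm hq, ← Pool.WMC.wmp_thm hq]
    exact ⟨fun h => h1.wm hq hq h, fun h => h0.wm hq hq h⟩
  | succ r ih =>
    rw [ih]
    have h : FN.Twist (sc hq M r) (sc hq M (r + 1)) := by
      refine ⟨LinearEquiv.refl _ _, ?_, fun x => rfl⟩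
      have h0 : ∀ x : M.V, ((q : Ω) ^ (r + 1) • M.F) x = (q : Ω) • ((q : Ω) ^ r • M.F) x := by
        intro x
        rw [LinearMap.smul_apply, LinearMap.smul_apply, smul_smul, pow_succ']
      exact h0
    rw [twi_thm hq _ _ h, Nat.cast_succ, mul_add, mul_one, add_assoc]

/-- If `M (-r)` is a direct summand of a space with weight-monodromy of weight `w + 2 r`, then
weight-monodromy of weight `w` holds for `M`. -/
theorem wm_of_retract [IsAlgClosed Ω] (hq : 1 < q) (M M' : FN q Ω) (r : ℕ) (w : ℤ)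
    (J : M.V →ₗ[Ω] M'.V) (ρ : M'.V →ₗ[Ω] M.V) (h1 : ∀ x, ρ (J x) = x)
    (hJF : ∀ x, M'.F (J x) = (q : Ω) ^ r • J (M.F x)) (hJN : ∀ x, M'.N (J x) = J (M.N x))
    (hρF : ∀ y, ρ (M'.F y) = (q : Ω) ^ r • M.F (ρ y)) (hρN : ∀ y, ρ (M'.N y) = M.N (ρ y))
    (h : M'.WM (w + 2 * r)) : M.WM w := by
  rw [Pool.WMC.wmp_thm hq] at h ⊢
  rw [sc_pur hq M r]
  have h2 : ∀ x : M.V, J (((q : Ω) ^ r • M.F) x) = M'.F (J x) := by
    intro x
    rw [hJF, LinearMap.smul_apply, map_smul]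
  have h3 : ∀ y, ρ (M'.F y) = ((q : Ω) ^ r • M.F) (ρ y) := hρF
  have h4 : ∀ x : M.V, J (M.N x) = (1 : Ω) • M'.N (J x) := by
    intro x
    rw [one_smul, hJN]
  have h5 : ∀ y, ρ ((1 : Ω) • M'.N y) = M.N (ρ y) := by
    intro y
    rw [one_smul, hρN]
  exact Pool.WMC.sum_thm hq hq (sc hq M r) M' ⟨1, 1, 1, J, ρ, one_pos, one_pos, rfl,
    one_ne_zero, h1, h2, h3, h4, h5⟩ _ h

theorem wm_of_isometry [IsAlgClosed Ω] (hq : 1 < q) (M M₂ M' M₂' : FN q Ω) (r n : ℕ) (w : ℤ)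
    (p : M.V →ₗ[Ω] M₂.V →ₗ[Ω] Ω) (p' : M'.V →ₗ[Ω] M₂'.V →ₗ[Ω] Ω) (J : M.V →ₗ[Ω] M'.V)
    (J₂ : M₂.V →ₗ[Ω] M₂'.V) (m : Ω) (hm : m ≠ 0)
    (hpF : ∀ x y, p (M.F x) (M₂.F y) = (q : Ω) ^ n * p x y)
    (hpN : ∀ x y, p (M.N x) y + p x (M₂.N y) = 0)
    (hl : ∀ x, (∀ y, p x y = 0) → x = 0) (hr : ∀ y, (∀ x, p x y = 0) → y = 0)
    (hpF' : ∀ x y, p' (M'.F x) (M₂'.F y) = (q : Ω) ^ (n + 2 * r) * p' x y)
    (hpN' : ∀ x y, p' (M'.N x) y + p' x (M₂'.N y) = 0)
    (hJF : ∀ x, M'.F (J x) = (q : Ω) ^ r • J (M.F x)) (hJN : ∀ x, M'.N (J x) = J (M.N x))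
    (hJF₂ : ∀ x, M₂'.F (J₂ x) = (q : Ω) ^ r • J₂ (M₂.F x))
    (hJN₂ : ∀ x, M₂'.N (J₂ x) = J₂ (M₂.N x))
    (hiso : ∀ x y, p' (J x) (J₂ y) = m * p x y)
    (h : M'.WM (w + 2 * r)) : M.WM w := by
  have hq0 : (q : Ω) ≠ 0 := FN.q_ne hq
  have hinj : Function.Injective p := by
    rw [← LinearMap.ker_eq_bot, LinearMap.ker_eq_bot']
    intro x hx
    exact hl x fun y => by rw [hx]; rfl
  have hinj' : Function.Injective p.flip := by
    rw [← LinearMap.ker_eq_bot, LinearMap.ker_eq_bot']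
    intro y hy
    exact hr y fun x => by
      have := LinearMap.congr_fun hy x
      simpa using this
  have hdim : finrank Ω M.V = finrank Ω (M₂.V →ₗ[Ω] Ω) := by
    apply le_antisymm
    · exact LinearMap.finrank_le_finrank_of_injective hinj
    · rw [Subspace.dual_finrank_eq (K := Ω) (V := M₂.V)]
      have h2 := LinearMap.finrank_le_finrank_of_injective hinj'
      rwa [Subspace.dual_finrank_eq (K := Ω) (V := M.V)] at h2
  let Φ := LinearEquiv.ofInjectiveOfFinrankEq p hinj hdim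
  have hΦ : ∀ x y, Φ x y = p x y := fun x y => rfl
  let ρ : M'.V →ₗ[Ω] M.V := m⁻¹ • (Φ.symm.toLinearMap ∘ₗ p'.compl₂ J₂)
  have hρ : ∀ y x', p (ρ y) x' = m⁻¹ * p' y (J₂ x') := by
    intro y x'
    have h3 : Φ (ρ y) = m⁻¹ • (p'.compl₂ J₂) y := by
      show Φ (m⁻¹ • Φ.symm ((p'.compl₂ J₂) y)) = _
      rw [map_smul, LinearEquiv.apply_symm_apply]
    rw [← hΦ, h3]
    rfl
  have hF₂ : Function.Surjective M₂.F := by
    rw [← LinearMap.injective_iff_surjective, ← LinearMap.ker_eq_bot, LinearMap.ker_eq_bot']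
    exact M₂.F_inj
  refine wm_of_retract hq M M' r w J ρ ?_ hJF hJN ?_ ?_ h
  · intro x
    apply hinj
    ext x'
    rw [hρ, hiso, ← mul_assoc, inv_mul_cancel₀ hm, one_mul]
  · intro y
    apply hinj
    ext x'
    obtain ⟨x', rfl⟩ := hF₂ x'
    have h4 : J₂ (M₂.F x') = ((q : Ω) ^ r)⁻¹ • M₂'.F (J₂ x') := by
      rw [hJF₂, smul_smul, inv_mul_cancel₀ (pow_ne_zero _ hq0), one_smul]
    rw [hρ, h4, map_smul, hpF', map_smul, LinearMap.smul_apply, hpF, hρ]
    simp only [smul_eq_mul]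
    field_simp
    ring
  · intro y
    apply hinj
    ext x'
    have h5 := hpN' y (J₂ x')
    have h6 := hpN (ρ y) x'
    rw [hJN₂] at h5
    rw [hρ] at h6
    rw [hρ, eq_neg_of_add_eq_zero_left h5, eq_neg_of_add_eq_zero_left h6]
    ring

end

theorem euler_ne {K : Type} [Field K] (V : Rep K) : V.euler ≠ 0 := by
  refine mul_ne_zero (pow_ne_zero _ (by norm_num)) ?_
  refine Finset.prod_ne_zero_iff.2 fun l _ => ?_
  exact_mod_cast (Nat.factorial_pos _).ne'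

/-- Weight-monodromy for zero loci in quotients of representations. -/
theorem wm_quot {Ω : Type} [Field Ω] [CharZero Ω] [IsAlgClosed Ω] {K : Type} [Field K] {q : ℕ}
    (hq : 1 < q) {B : ℕ → Set K} (G : Geometry K) {T : Coh K q Ω} (hT : T.Facts B) {V : Rep K}
    {θ : Fin V.m → ℤ} {c : ℕ} {d : Fin c → V.Row → ℤ}
    (D : Sys V c d) (hV : V.Good θ) (hD : D.Nice θ) (hl : D.Limit B θ)
    (hc : ∑ j, V.k j ^ 2 + c ≤ Fintype.card V.I) (X : Sm K)
    (hX : D.IsQuot (V.GSt θ) V.GEq X) (hp : IsProper X.f)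
    (hd : SmoothOfRelativeDimension (V.dimX c) X.f) (i : ℕ) :
    (T.H X i).WM i := by
  obtain ⟨U, hU⟩ := G.torus D hV hD
  obtain ⟨u, hu⟩ := hT.thom D X U hV hD hp hX hU
  obtain ⟨e, he⟩ := hT.tube D U hV hD hU
  obtain ⟨D', hD', hD's⟩ := hl e
  obtain ⟨W, hW, hWp, hWd⟩ := G.proper D' hV hD's
  obtain ⟨s, hs⟩ := he D' W hD' hD's hWp hW
  have hwm := hT.toric D' W hV hD's hWp hW (i + 2 * V.dimF + 2 * 0)
  have hdim : V.dimW c = V.dimX c + 2 * V.dimF := by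
    have := dim_eq V.k
    rw [Rep.dimF, Rep.dimW, Rep.dimX]
    omega
  have hJF : ∀ i x, (T.H W (i + 2 * V.dimF + 2 * 0)).F ((s _).f ((u i).f x)) =
      (q : Ω) ^ V.dimF • (s _).f ((u i).f ((T.H X i).F x)) := by
    intro i x
    rw [(s _).F, (u i).F, map_smul, pow_zero, one_smul]
  have hJN : ∀ i x, (T.H W (i + 2 * V.dimF + 2 * 0)).N ((s _).f ((u i).f x)) =
      (s _).f ((u i).f ((T.H X i).N x)) := by
    intro i x
    rw [(s _).N, (u i).N]
  by_cases hi : i ≤ 2 * V.dimX c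
  · obtain ⟨j, hj⟩ := Nat.exists_eq_add_of_le hi
    have h1 := T.eqv X _ i j hd hj.symm
    have h2 := T.eqv W (V.dimX c + 2 * V.dimF) (i + 2 * V.dimF + 2 * 0) (j + 2 * V.dimF + 2 * 0)
      (hdim ▸ hWd) (by omega)
    refine wm_of_isometry hq (T.H X i) (T.H X j) (T.H W (i + 2 * V.dimF + 2 * 0))
      (T.H W (j + 2 * V.dimF + 2 * 0)) V.dimF (V.dimX c) i (T.pair X i j).p
      (T.pair W (i + 2 * V.dimF + 2 * 0) (j + 2 * V.dimF + 2 * 0)).p
      ((s _).f ∘ₗ (u i).f) ((s _).f ∘ₗ (u j).f) (V.euler : Ω) ?_ h1.F h1.N ?_ ?_ h2.F h2.N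
      (hJF i) (hJN i) (hJF j) (hJN j) ?_ ?_
    · exact_mod_cast euler_ne V
    · intro x hx
      refine T.perfect X _ hp hd i x fun j' hj' y => ?_
      obtain rfl : j' = j := by omega
      exact hx y
    · intro y hy
      refine T.perfect X _ hp hd j y fun i' hi' x => ?_
      obtain rfl : i' = i := by omega
      rw [T.symm X i' j x y, hy, mul_zero]
    · intro x y
      show (T.pair W _ _).p ((s _).f ((u i).f x)) ((s _).f ((u j).f y)) = _
      rw [hs, hu, Int.cast_one, one_mul]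
    · push_cast at hwm
      simpa using hwm
  · have hz : ∀ x : (T.H X i).V, x = 0 := by
      intro x
      refine T.perfect X _ hp hd i x fun j hj => ?_
      omega
    refine wm_of_retract hq (T.H X i) (T.H W (i + 2 * V.dimF + 2 * 0)) V.dimF i 0 0
      ?_ ?_ ?_ ?_ ?_ ?_
    · intro x
      rw [hz x, map_zero, map_zero]
    · intro x
      simp
    · intro x
      simp
    · intro y
      simp
    · intro y
      simp
    · push_cast at hwm
      simpa using hwm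

/-- Weight-monodromy for varieties dominated by zero loci in quotients of representations. -/
theorem main {Ω : Type} [Field Ω] [CharZero Ω] [IsAlgClosed Ω] {K : Type} [Field K] {q : ℕ}
    (hq : 1 < q) {B : ℕ → Set K} (G : Geometry K) {T : Coh K q Ω} (hT : T.Facts B) {V : Rep K}
    {θ : Fin V.m → ℤ} {c : ℕ} {d : Fin c → V.Row → ℤ}
    (D : Sys V c d) (hV : V.Good θ) (hD : D.Nice θ) (hl : D.Limit B θ)
    (hc : ∑ j, V.k j ^ 2 + c ≤ Fintype.card V.I) (X : Sm K)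
    (hX : D.IsQuot (V.GSt θ) V.GEq X) (hp : IsProper X.f)
    (hd : SmoothOfRelativeDimension (V.dimX c) X.f)
    (X' : Sm K) (hp' : IsProper X'.f) (g : X.Z ⟶ X'.Z) (hg : g ≫ X'.f = X.f)
    (hs : Surjective g) (i : ℕ) : (T.H X' i).WM i := by
  obtain ⟨j, r, hr⟩ := hT.dom X X' g hp hp' hg hs i
  refine wm_of_retract hq _ _ 0 i j.f r.f hr j.F j.N ?_ ?_ ?_
  · intro y
    have := r.F y
    rw [pow_zero, one_smul] at this ⊢
    exact this.symm
  · intro y
    exact (r.N y).symm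
  · have := wm_quot hq G hT D hV hD hl hc X hX hp hd i
    simpa using this

end Pool.H87.GS

end
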