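import Mathlib
import Pool.Agent.H9.AK.Defs

/-!
Zero loci in quotients of representations of products of general linear groups, and the facts on
their cohomology which are used (MP_d037d4_ag).
-/

noncomputable section

namespace Pool.H87.GS

open CategoryTheory AlgebraicGeometry Pool.H9.WMC Pool.H9.AK

/-! ### Representations -/

/-- The matrix coefficients of a representation of a product of general linear groups over `K` and
the weights of its coordinates. -/
structure Rep (K : Type) [Field K] where
  /-- The number of the groups. -/
  m : ℕ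
  /-- The sizes of the groups. -/
  k : Fin m → ℕ
  /-- The coordinates of the representation. -/
  I : Type
  [fin : Fintype I]
  /-- The numerators of the matrix coefficients, polynomials in the entries of the matrices. -/
  P : I → I → MvPolynomial (Σ j : Fin m, Fin (k j) × Fin (k j)) K
  /-- The exponent of the determinants in the denominator. -/
  e : ℕ
  /-- The weights of the coordinates. -/
  wt : I → (Σ j : Fin m, Fin (k j)) → ℤ

attribute [instance] Rep.fin

section
variable {K : Type} [Field K] (V : Rep K)

/-- The rows of the matrices. -/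
abbrev Rep.Row : Type := Σ j : Fin V.m, Fin (V.k j)

/-- The product of the groups `GL (k j)` (over the algebraic closure of `K`). -/
abbrev Rep.G : Type := ∀ j : Fin V.m, GL (Fin (V.k j)) (AlgebraicClosure K)

/-- The torus of the diagonal matrices. -/
abbrev Rep.T : Type := V.Row → (AlgebraicClosure K)ˣ

/-- The points of the representation. -/
abbrev Rep.Pt : Type := V.I → AlgebraicClosure K

/-- The action of the group. -/
def Rep.act (g : V.G) (M : V.Pt) : V.Pt := fun v =>
  ((∏ j, (g j).det.val) ^ V.e)⁻¹ *
    ∑ w, MvPolynomial.aeval (fun x => (g x.1).val x.2.1 x.2.2) (V.P v w) * M w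

/-- The action of the torus: the coordinate `v` is multiplied by the character `wt v`. -/
def Rep.tor (t : V.T) (M : V.Pt) : V.Pt := fun v => (∏ r, t r ^ V.wt v r).val * M v

/-- `act` is an action, for which the diagonal matrices act by `tor`. -/
structure Rep.IsRep : Prop where
  mul : ∀ g h M, V.act (g * h) M = V.act g (V.act h M)
  diag : ∀ (g : V.G) (t : V.T) (M : V.Pt),
    (∀ j, (g j).val = Matrix.diagonal fun a => (t ⟨j, a⟩).val) → V.act g M = V.tor t M

/-- `M'` is in the orbit of `M` under the group. -/
def Rep.GEq (M M' : V.Pt) : Prop := ∃ g, M' = V.act g M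

/-- `M'` is in the orbit of `M` under the torus. -/
def Rep.TEq (M M' : V.Pt) : Prop := ∃ t, M' = V.tor t M

/-- The point is semistable for the torus and the character `∏ det (g j) ^ θ j`: a monomial, whose
weight is a positive multiple of this character, does not vanish at the point. -/
def Rep.TSt (θ : Fin V.m → ℤ) (M : V.Pt) : Prop :=
  ∃ (n : ℕ) (a : V.I → ℕ), 0 < n ∧ (∀ v, a v ≠ 0 → M v ≠ 0) ∧
    ∀ r, ∑ v, a v * V.wt v r = n * θ r.1

/-- The point is semistable for the group (Hilbert, Mumford): all points in its orbit are semistable
for the torus. -/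
def Rep.GSt (θ : Fin V.m → ℤ) (M : V.Pt) : Prop := ∀ g, V.TSt θ (V.act g M)

/-- The torus acts freely on its semistable points, and all monomials which are invariant under the
torus are constant: the quotient by the torus is a smooth projective toric variety. -/
structure Rep.Good (θ : Fin V.m → ℤ) : Prop extends V.IsRep where
  free : ∀ t M, V.TSt θ M → V.tor t M = M → t = 1
  compact : ∀ a : V.I → ℕ, (∀ r, ∑ v, a v * V.wt v r = 0) → a = 0

/-- The dimension of the variety of the complete flags of the group. -/
def Rep.dimF : ℕ := ∑ j, (V.k j).choose 2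

/-- The dimension of the quotient of the zero locus of `c` equations by the group. -/
def Rep.dimX (c : ℕ) : ℕ := Fintype.card V.I - (∑ j, V.k j ^ 2 + c)

/-- The dimension of the quotient of the zero locus of `c` equations by the torus. -/
def Rep.dimW (c : ℕ) : ℕ := Fintype.card V.I - (∑ j, V.k j + c)

/-- The Euler number of the variety of complete flags, up to the sign. -/
def Rep.euler : ℤ := (-1) ^ V.dimF * ∏ j, ((V.k j).factorial : ℤ)

end

/-! ### Systems of equations -/

/-- `c` polynomials on the representation, the `i`-th one of weight `d i` for the torus. -/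
structure Sys {K : Type} [Field K] (V : Rep K) (c : ℕ) (d : Fin c → V.Row → ℤ) where
  /-- The polynomials. -/
  s : Fin c → MvPolynomial V.I K
  semi : ∀ i, ∀ a ∈ (s i).support, ∀ r, ∑ v, a v * V.wt v r = d i r

section
variable {K : Type} [Field K] {V : Rep K} {c : ℕ} {d : Fin c → V.Row → ℤ}

/-- The point is a common zero of the polynomials. -/
def Sys.Zero (D : Sys V c d) (M : V.Pt) : Prop := ∀ i, MvPolynomial.aeval M (D.s i) = 0

/-- The gradient of a polynomial at a point. -/
def grad (f : MvPolynomial V.I K) (M : V.Pt) : V.Pt :=
  fun v => MvPolynomial.aeval M (MvPolynomial.pderiv v f)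

/-- The gradients are linearly independent at the point. -/
def Sys.Trans (D : Sys V c d) (M : V.Pt) : Prop :=
  LinearIndependent (AlgebraicClosure K) fun i => grad (D.s i) M

/-- The system defines a smooth subvariety of the quotient by the group:

* `stable`: the set of the semistable zeros is stable under the group;
* `free`: the group acts freely on it;
* `trans`: it is a transversal intersection. -/
structure Sys.Nice (D : Sys V c d) (θ : Fin V.m → ℤ) : Prop where
  stable : ∀ M g, V.GSt θ M → D.Zero M → D.Zero (V.act g M)
  free : ∀ M g, V.GSt θ M → D.Zero M → V.act g M = M → g = 1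
  trans : ∀ M, V.GSt θ M → D.Zero M → D.Trans M

/-- The polynomials define smooth hypersurfaces in the quotient by the torus, and these intersect
transversally. -/
structure Sys.Smooth (D : Sys V c d) (θ : Fin V.m → ℤ) : Prop where
  trans : ∀ M, V.TSt θ M → D.Zero M → D.Trans M
  hyp : ∀ i M, V.TSt θ M → MvPolynomial.aeval M (D.s i) = 0 → grad (D.s i) M ≠ 0

/-- The differences of the coefficients of the two systems are in `B`. -/
def Sys.Near (B : Set K) (D D' : Sys V c d) : Prop :=
  ∀ i a, (D'.s i).coeff a - (D.s i).coeff a ∈ B

/-- Arbitrarily close to the system there are smooth ones.  By Bertini's theorem this is true if the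
weights `d i` have no base points, that is, if at every semistable point of the torus there is, for
every `i`, a monomial of weight `d i` which does not vanish. -/
def Sys.Limit (B : ℕ → Set K) (D : Sys V c d) (θ : Fin V.m → ℤ) : Prop :=
  ∀ e : ℕ, ∃ D' : Sys V c d, D.Near (B e) D' ∧ D'.Smooth θ

end

/-- The powers of the maximal ideal. -/
def ball (L : LF) (e : ℕ) : Set L.K :=
  (fun y => algebraMap L.O L.K y) '' (IsLocalRing.maximalIdeal L.O ^ e : Ideal L.O)

/-! ### Schemes -/

/-- A smooth separated scheme of finite type over the field `K`. -/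
structure Sm (K : Type) [Field K] where
  /-- The scheme. -/
  Z : Scheme.{0}
  /-- The structure morphism. -/
  f : Z ⟶ Spec (CommRingCat.of K)
  smooth : Smooth f
  sep : IsSeparated f
  qc : QuasiCompact f

section
variable {K : Type} [Field K]

/-- The spectrum of the algebraic closure. -/
def geo (K : Type) [Field K] : Scheme.{0} := Spec (CommRingCat.of (AlgebraicClosure K))

/-- The structure morphism of the spectrum of the algebraic closure. -/
def geoTo (K : Type) [Field K] : geo K ⟶ Spec (CommRingCat.of K) :=
  Spec.map (CommRingCat.ofHom (algebraMap K (AlgebraicClosure K)))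

/-- Affine space. -/
def aff (K : Type) [Field K] (I : Type) : Scheme.{0} :=
  Spec (CommRingCat.of (MvPolynomial I K))

/-- The structure morphism of affine space. -/
def affTo (K : Type) [Field K] (I : Type) : aff K I ⟶ Spec (CommRingCat.of K) :=
  Spec.map (CommRingCat.ofHom MvPolynomial.C)

/-- A point of affine space as a morphism. -/
def pt {I : Type} (M : I → AlgebraicClosure K) : geo K ⟶ aff K I :=
  Spec.map (CommRingCat.ofHom (MvPolynomial.aeval M).toRingHom)

/-- The closed subscheme of affine space defined by the polynomials. -/
def zer {I J : Type} (s : J → MvPolynomial I K) : Scheme.{0} :=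
  Spec (CommRingCat.of (MvPolynomial I K ⧸ Ideal.span (Set.range s)))

/-- The inclusion of the closed subscheme. -/
def zerTo {I J : Type} (s : J → MvPolynomial I K) : zer s ⟶ aff K I :=
  Spec.map (CommRingCat.ofHom (Ideal.Quotient.mk (Ideal.span (Set.range s))))

/-- The scheme `Z` is the quotient by the equivalence relation `R` of the open subscheme `Y` of
the closed subscheme of affine space defined by the system, whose points are the common zeros `M`
with `P M`: there is a smooth morphism `π : Y ⟶ Z` over `K`, surjective on points over the algebraic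
closure, whose fibres are the classes of `R`. -/
def Sys.IsQuot {V : Rep K} {c : ℕ} {d : Fin c → V.Row → ℤ} (D : Sys V c d)
    (P : V.Pt → Prop) (R : V.Pt → V.Pt → Prop) (Z : Sm K) : Prop :=
  ∃ (Y : Scheme.{0}) (j : Y ⟶ zer D.s) (l : Y ⟶ aff K V.I) (π : Y ⟶ Z.Z),
    IsOpenImmersion j ∧ AlgebraicGeometry.Smooth π ∧ l = j ≫ zerTo D.s ∧
    π ≫ Z.f = l ≫ affTo K V.I ∧
    (∀ M, (∃ y, y ≫ l = pt M) ↔ P M ∧ D.Zero M) ∧
    (∀ z, z ≫ Z.f = geoTo K → ∃ M y, y ≫ l = pt M ∧ y ≫ π = z) ∧
    ∀ M M' y y', y ≫ l = pt M → y' ≫ l = pt M' → (y ≫ π = y' ≫ π ↔ R M M')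

/-- Textbook facts on quotients over a field of characteristic `0`.

* `torus`: the quotient by the torus of the set of the zeros which are semistable for the group;
* `proper`: the quotient by the torus of the set of the zeros which are semistable for the
  torus. -/
structure Geometry (K : Type) [Field K] : Prop where
  torus : ∀ {V : Rep K} {θ : Fin V.m → ℤ} {c : ℕ} {d : Fin c → V.Row → ℤ} (D : Sys V c d),
    V.Good θ → D.Nice θ → ∃ U : Sm K, D.IsQuot (V.GSt θ) V.TEq U
  proper : ∀ {V : Rep K} {θ : Fin V.m → ℤ} {c : ℕ} {d : Fin c → V.Row → ℤ} (D : Sys V c d),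
    V.Good θ → D.Smooth θ → ∃ W : Sm K, D.IsQuot (V.TSt θ) V.TEq W ∧ IsProper W.f ∧
      SmoothOfRelativeDimension (V.dimW c) W.f

end

/-! ### Cohomology -/

section
variable {q : ℕ} {Ω : Type} [Field Ω] [CharZero Ω]

/-- A linear map `M ⟶ M'` which commutes with the monodromy and with the Frobenius maps up to the
factor `q ^ r`. -/
structure Mor (r : ℕ) (M M' : FN q Ω) where
  /-- The map. -/
  f : M.V →ₗ[Ω] M'.V
  F : ∀ x, M'.F (f x) = (q : Ω) ^ r • f (M.F x)
  N : ∀ x, M'.N (f x) = f (M.N x)

/-- `M` is a direct summand of `M'`. -/
def Retract (M M' : FN q Ω) : Prop :=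
  ∃ (j : Mor 0 M M') (r : Mor 0 M' M), ∀ x, r.f (j.f x) = x

/-- A pairing between `M` and `M'`. -/
structure Pairing (M M' : FN q Ω) where
  /-- The pairing. -/
  p : M.V →ₗ[Ω] M'.V →ₗ[Ω] Ω

/-- The pairing is compatible with the operators. -/
structure Pairing.Eqv {M M' : FN q Ω} (b : Pairing M M') (n : ℕ) : Prop where
  F : ∀ x y, b.p (M.F x) (M'.F y) = (q : Ω) ^ n * b.p x y
  N : ∀ x y, b.p (M.N x) y + b.p x (M'.N y) = 0

/-- A cohomology theory with compact support for smooth separated schemes over `K`.

* `H`: the cohomology with compact support, with the operators given by a Frobenius element and by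
  the monodromy;
* `pair`: the intersection pairing; it is compatible with the operators, symmetric up to sign, and
  perfect for proper schemes. -/
structure Coh (K : Type) [Field K] (q : ℕ) (Ω : Type) [Field Ω] [CharZero Ω] where
  /-- The cohomology with compact support. -/
  H : Sm K → ℕ → FN q Ω
  /-- The intersection pairing. -/
  pair : ∀ (Z : Sm K) (i j : ℕ), Pairing (H Z i) (H Z j)
  eqv : ∀ (Z : Sm K) (n i j : ℕ), SmoothOfRelativeDimension n Z.f → i + j = 2 * n →
    (pair Z i j).Eqv n
  symm : ∀ (Z : Sm K) (i j : ℕ) (x : (H Z i).V) (y : (H Z j).V),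
    (pair Z j i).p y x = (-1) ^ (i * j) * (pair Z i j).p x y
  perfect : ∀ (Z : Sm K) (n : ℕ), IsProper Z.f → SmoothOfRelativeDimension n Z.f →
    ∀ (i : ℕ) (x : (H Z i).V), (∀ j, i + j = 2 * n → ∀ y, (pair Z i j).p x y = 0) → x = 0

variable {K : Type} [Field K]

/-- There are maps from the cohomology of `Z` to the cohomology of `Z'`, of degree `2 r` and
compatible with the operators, which multiply the intersection pairing by `m`. -/
def Coh.Isom (T : Coh K q Ω) (Z Z' : Sm K) (r : ℕ) (m : ℤ) : Prop :=
  ∃ u : ∀ i, Mor r (T.H Z i) (T.H Z' (i + 2 * r)),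
    ∀ i j x y, (T.pair Z' (i + 2 * r) (j + 2 * r)).p ((u i).f x) ((u j).f y) =
      m * (T.pair Z i j).p x y

/-- Known facts on the `p`-adic (Hyodo-Kato) cohomology and on the `l`-adic cohomology over a local
field of characteristic `0`; the sets `B e` are the powers of the maximal ideal.

* `dom`: for a surjective morphism `X ⟶ X'` of proper schemes the cohomology of `X'` is a direct
  summand of the cohomology of `X`;
* `thom`: the scheme `U` is a bundle of affine spaces over the bundle of complete flags of the
  torsor over `X`.  The product with its Thom class multiplies the intersection pairing by the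
  degree of the top Chern class of the relative cotangent bundle of the bundle of flags over `X`;
* `tube`: the scheme `U` is an open subscheme of the zero locus of the system in the toric
  variety.  The cohomology of this locus is the limit of the cohomology of the tubes around it, and a
  tube contains the zero loci `W` of all systems close to the given one.  So we get a map from the
  cohomology with compact support of `U` to the cohomology of `W`; it preserves the intersection
  pairing, since a disc which meets the zero locus transversally in one point of `U` meets `W`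
  transversally in one point;
* `toric`: weight-monodromy for smooth intersections of smooth hypersurfaces in smooth projective
  toric varieties (Scholze; Binda, Kato and Vezzani). -/
structure Coh.Facts (T : Coh K q Ω) (B : ℕ → Set K) : Prop where
  dom : ∀ (X X' : Sm K) (g : X.Z ⟶ X'.Z), IsProper X.f → IsProper X'.f → g ≫ X'.f = X.f →
    Surjective g → ∀ i, Retract (T.H X' i) (T.H X i)
  thom : ∀ {V : Rep K} {θ : Fin V.m → ℤ} {c : ℕ} {d : Fin c → V.Row → ℤ} (D : Sys V c d)
    (X U : Sm K), V.Good θ → D.Nice θ → IsProper X.f → D.IsQuot (V.GSt θ) V.GEq X →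
    D.IsQuot (V.GSt θ) V.TEq U → T.Isom X U V.dimF V.euler
  tube : ∀ {V : Rep K} {θ : Fin V.m → ℤ} {c : ℕ} {d : Fin c → V.Row → ℤ} (D : Sys V c d)
    (U : Sm K), V.Good θ → D.Nice θ → D.IsQuot (V.GSt θ) V.TEq U →
    ∃ e : ℕ, ∀ (D' : Sys V c d) (W : Sm K), D.Near (B e) D' → D'.Smooth θ → IsProper W.f →
      D'.IsQuot (V.TSt θ) V.TEq W → T.Isom U W 0 1
  toric : ∀ {V : Rep K} {θ : Fin V.m → ℤ} {c : ℕ} {d : Fin c → V.Row → ℤ} (D : Sys V c d)
    (W : Sm K), V.Good θ → D.Smooth θ → IsProper W.f → D.IsQuot (V.TSt θ) V.TEq W →
    ∀ i : ℕ, (T.H W i).WM i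

end

end Pool.H87.GS

end
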