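import Pool.Agent.H87.GS.Defs

/-!
The example of products of Grassmannians (MP_d037d4_ag).
-/

noncomputable section

namespace Pool.H87.GS

open Module CategoryTheory AlgebraicGeometry Pool.H9.WMC Pool.H9.AK

/-- Tuples of `k j × n j` matrices with the action by multiplication on the left. -/
abbrev grass (K : Type) [Field K] (m : ℕ) (k n : Fin m → ℕ) : Rep K where
  m := m
  k := k
  I := Σ j : Fin m, Fin (k j) × Fin (n j)
  P := fun v w => if h : w.1 = v.1 then
    (if (h ▸ w.2.2 : Fin (n v.1)) = v.2.2 then MvPolynomial.X ⟨v.1, v.2.1, h ▸ w.2.1⟩ else 0) else 0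
  e := 0
  wt := fun v r => if r = ⟨v.1, v.2.1⟩ then 1 else 0

variable {K : Type} [Field K] {m : ℕ} {k n : Fin m → ℕ}

theorem grass_P_same (j : Fin m) (a a' : Fin (k j)) (b b' : Fin (n j)) :
    (grass K m k n).P ⟨j, a, b⟩ ⟨j, a', b'⟩ =
      if b' = b then MvPolynomial.X ⟨j, a, a'⟩ else 0 := by
  simp

theorem grass_P_ne (j j' : Fin m) (h : j' ≠ j) (x : Fin (k j) × Fin (n j))
    (y : Fin (k j') × Fin (n j')) : (grass K m k n).P ⟨j, x⟩ ⟨j', y⟩ = 0 := by
  show (if h : j' = j then _ else 0) = _
  rw [dif_neg h]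

theorem grass_act (g : (grass K m k n).G) (M : (grass K m k n).Pt) (j : Fin m) (a : Fin (k j))
    (b : Fin (n j)) :
    (grass K m k n).act g M ⟨j, a, b⟩ = ∑ a', (g j).val a a' * M ⟨j, a', b⟩ := by
  unfold Rep.act
  have h1 : ((∏ j, (g j).det.val) ^ (grass K m k n).e)⁻¹ = 1 := by
    show ((∏ j, (g j).det.val) ^ 0)⁻¹ = 1
    rw [pow_zero, inv_one]
  rw [h1, one_mul, Fintype.sum_sigma, Finset.sum_eq_single j]
  · rw [Fintype.sum_prod_type]
    refine Finset.sum_congr rfl fun a' _ => ?_
    rw [Finset.sum_eq_single b]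
    · rw [grass_P_same, if_pos rfl, MvPolynomial.aeval_X]
    · intro b' _ hb
      rw [grass_P_same, if_neg hb, map_zero, zero_mul]
    · intro h
      exact absurd (Finset.mem_univ _) h
  · intro j' _ hj
    refine Finset.sum_eq_zero fun w _ => ?_
    rw [grass_P_ne _ _ hj, map_zero, zero_mul]
  · intro h
    exact absurd (Finset.mem_univ _) h

theorem grass_tor (t : (grass K m k n).T) (M : (grass K m k n).Pt) (j : Fin m) (a : Fin (k j))
    (b : Fin (n j)) : (grass K m k n).tor t M ⟨j, a, b⟩ = (t ⟨j, a⟩).val * M ⟨j, a, b⟩ := by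
  unfold Rep.tor
  congr 1
  have : ∏ r : (grass K m k n).Row, t r ^ (grass K m k n).wt ⟨j, a, b⟩ r = t ⟨j, a⟩ := by
    rw [Finset.prod_eq_single (⟨j, a⟩ : (grass K m k n).Row)]
    · show t ⟨j, a⟩ ^ (if (⟨j, a⟩ : Σ j, Fin (k j)) = ⟨j, a⟩ then (1 : ℤ) else 0) = _
      rw [if_pos rfl, zpow_one]
    · intro r _ hr
      show t r ^ (if r = ⟨j, a⟩ then (1 : ℤ) else 0) = _
      rw [if_neg hr, zpow_zero]
    · intro h
      exact absurd (Finset.mem_univ _) h
  rw [this]

theorem grass_isRep : (grass K m k n).IsRep where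
  mul := by
    intro g h M
    funext v
    obtain ⟨j, a, b⟩ := v
    rw [grass_act, grass_act]
    simp_rw [grass_act, Finset.mul_sum]
    rw [Finset.sum_comm]
    refine Finset.sum_congr rfl fun a' _ => ?_
    show ((g j).val * (h j).val) a a' * _ = _
    rw [Matrix.mul_apply, Finset.sum_mul]
    exact Finset.sum_congr rfl fun _ _ => mul_assoc _ _ _
  diag := by
    intro g t M hg
    funext v
    obtain ⟨j, a, b⟩ := v
    rw [grass_act, grass_tor, hg j]
    rw [Finset.sum_eq_single a]
    · rw [Matrix.diagonal_apply_eq]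
    · intro a' _ ha
      rw [Matrix.diagonal_apply_ne _ ha.symm, zero_mul]
    · intro h
      exact absurd (Finset.mem_univ _) h

theorem grass_wt (a : (grass K m k n).I → ℕ) (j : Fin m) (i : Fin (k j)) :
    ∑ v, (a v : ℤ) * (grass K m k n).wt v ⟨j, i⟩ = ∑ b, (a ⟨j, i, b⟩ : ℤ) := by
  show ∑ v : Σ j : Fin m, Fin (k j) × Fin (n j), (a v : ℤ) *
    (if (⟨j, i⟩ : Σ j, Fin (k j)) = ⟨v.1, v.2.1⟩ then (1 : ℤ) else 0) = _
  rw [Fintype.sum_sigma, Finset.sum_eq_single j]
  · rw [Fintype.sum_prod_type, Finset.sum_eq_single i]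
    · refine Finset.sum_congr rfl fun b _ => ?_
      rw [if_pos rfl, mul_one]
    · intro i' _ hi
      refine Finset.sum_eq_zero fun b _ => ?_
      rw [if_neg, mul_zero]
      intro h
      simp only [Sigma.mk.injEq, heq_eq_eq, true_and] at h
      exact hi h.symm
    · intro h
      exact absurd (Finset.mem_univ _) h
  · intro j' _ hj
    refine Finset.sum_eq_zero fun w _ => ?_
    rw [if_neg, mul_zero]
    intro h
    exact hj (congrArg Sigma.fst h).symm
  · intro h
    exact absurd (Finset.mem_univ _) h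

/-- Semistable for the torus: no row is zero. -/
theorem grass_tst (M : (grass K m k n).Pt) :
    (grass K m k n).TSt (fun _ => 1) M ↔ ∀ (j : Fin m) (i : Fin (k j)), ∃ b, M ⟨j, i, b⟩ ≠ 0 := by
  constructor
  · rintro ⟨l, a, hl, ha, h⟩ j i
    have h1 := h ⟨j, i⟩
    rw [grass_wt, mul_one] at h1
    by_contra hc
    push Not at hc
    have h2 : ∀ b, a ⟨j, i, b⟩ = 0 := by
      intro b
      by_contra hb
      exact ha _ hb (hc b)
    simp only [h2, Nat.cast_zero, Finset.sum_const_zero] at h1
    exact hl.ne (by exact_mod_cast h1)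
  · intro h
    choose b hb using h
    refine ⟨1, fun v => if v.2.2 = b v.1 v.2.1 then 1 else 0, one_pos, ?_, ?_⟩
    · intro v hv
      obtain ⟨j, i, b'⟩ := v
      have : b' = b j i := by
        by_contra hne
        exact hv (if_neg hne)
      rw [this]
      exact hb j i
    · rintro ⟨j, i⟩
      rw [grass_wt]
      show ∑ b', (((if b' = b j i then 1 else 0 : ℕ)) : ℤ) = _
      rw [Finset.sum_eq_single (b j i)]
      · rw [if_pos rfl]
        rfl
      · intro b' _ hb'
        rw [if_neg hb']
        rfl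
      · intro h
        exact absurd (Finset.mem_univ _) h

theorem grass_good : (grass K m k n).Good (fun _ => 1) where
  toIsRep := grass_isRep
  free := by
    intro t M hM h
    rw [grass_tst] at hM
    funext r
    obtain ⟨j, i⟩ := r
    obtain ⟨b, hb⟩ := hM j i
    have h1 := congrFun h ⟨j, i, b⟩
    rw [grass_tor] at h1
    apply Units.ext
    exact mul_right_cancel₀ hb (h1.trans (one_mul _).symm)
  compact := by
    intro a h
    funext v
    obtain ⟨j, i, b⟩ := v
    have h1 := h ⟨j, i⟩
    rw [grass_wt] at h1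
    have h2 : ∑ b, a ⟨j, i, b⟩ = 0 := by exact_mod_cast h1
    exact (Finset.sum_eq_zero_iff.1 h2) b (Finset.mem_univ _)

/-- Semistable for the group: the rows of each matrix are linearly independent. -/
theorem grass_gst (M : (grass K m k n).Pt) :
    (grass K m k n).GSt (fun _ => 1) M ↔ ∀ j : Fin m, LinearIndependent (AlgebraicClosure K)
      fun (i : Fin (k j)) (b : Fin (n j)) => M ⟨j, i, b⟩ := by
  constructor
  · intro h j
    rw [Fintype.linearIndependent_iff]
    intro x hx
    by_contra hne
    push Not at hne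
    obtain ⟨i, hi⟩ := hne
    have hdet : ((1 : Matrix (Fin (k j)) (Fin (k j)) (AlgebraicClosure K)).updateRow i x).det
        = x i := by
      rw [← Matrix.cramer_transpose_apply, Matrix.transpose_one, Matrix.cramer_one]
      rfl
    let g0 : GL (Fin (k j)) (AlgebraicClosure K) :=
      Matrix.GeneralLinearGroup.mkOfDetNeZero _ (hdet.symm ▸ hi)
    let g : (grass K m k n).G := Function.update 1 j g0
    have hg : (g j).val = (1 : Matrix (Fin (k j)) (Fin (k j)) (AlgebraicClosure K)).updateRow i x := by
      show (Function.update (1 : (grass K m k n).G) j g0 j).val = _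
      rw [Function.update_self]
      rfl
    obtain ⟨b, hb⟩ := (grass_tst _).1 (h g) j i
    apply hb
    rw [grass_act, hg]
    have h1 := congrFun hx b
    simp only [Matrix.updateRow_self]
    simpa using h1
  · intro h g
    rw [grass_tst]
    intro j i
    by_contra hc
    push Not at hc
    have h1 := Fintype.linearIndependent_iff.1 (h j) ((g j).val i) (by
      funext b
      have := hc b
      rw [grass_act] at this
      simpa using this)
    have h2 : (g j).val.det = 0 := Matrix.det_eq_zero_of_row_eq_zero i h1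
    exact (g j).det.ne_zero h2

/-- The group acts freely on its semistable points. -/
theorem grass_free (M : (grass K m k n).Pt) (hM : (grass K m k n).GSt (fun _ => 1) M)
    (g : (grass K m k n).G) (h : (grass K m k n).act g M = M) : g = 1 := by
  rw [grass_gst] at hM
  funext j
  apply Units.ext
  ext a a'
  have h1 := Fintype.linearIndependent_iff.1 (hM j)
    (fun i => (g j).val a i - (1 : Matrix (Fin (k j)) (Fin (k j)) (AlgebraicClosure K)) a i) (by
      funext b
      have h2 := congrFun h ⟨j, a, b⟩
      rw [grass_act] at h2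
      have h3 : ∑ i, (1 : Matrix (Fin (k j)) (Fin (k j)) (AlgebraicClosure K)) a i *
          M ⟨j, i, b⟩ = M ⟨j, a, b⟩ := by
        rw [Finset.sum_eq_single a]
        · rw [Matrix.one_apply_eq, one_mul]
        · intro i _ hi
          rw [Matrix.one_apply_ne hi.symm, zero_mul]
        · intro h
          exact absurd (Finset.mem_univ _) h
      simp only [Finset.sum_apply, Pi.smul_apply, smul_eq_mul, Pi.zero_apply, sub_mul,
        Finset.sum_sub_distrib]
      rw [h2, h3, sub_self]) a'
  exact sub_eq_zero.1 h1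

end Pool.H87.GS

end
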